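import Pool.Agent.Helper72.UGE.Window

/-!
# Project UGU (MP_e6fa8b_nt): the transfer and the window with a gap which does not depend on the modulus

Adapted from `UGE.transfer` and `UGE.window`: the gap of the class `r` modulo `q` is `δ M / q` with `δ` depending on
the number of shifts only, if the same is true for the statement `NoGapU` (no uniform bias along prime dilates).
-/

set_option autoImplicit false

namespace Pool.Agent.Helper21.UGU

open Finset MRP UGD UGA UGE
open MRA (seqP seqP_ge seqP_mono seqP_div)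

/-- No uniform bias along prime dilates, with a constant which depends on the number of shifts only. -/
def NoGapU (d : ℕ) : Prop := ∃ D : ℝ, 0 < D ∧ ∀ q : ℕ, 0 < q →
    ∀ (h : Fin d → ℕ) (H : ℕ), (∀ i, h i < H) → ∃ P₀ : ℕ, ∀ P : ℕ, P₀ ≤ P → ∃ M₀ : ℕ, ∀ M : ℕ, M₀ ≤ M →
      ∀ (ρ : ℕ → ℕ) (τ : ℕ → ZMod 2), (∀ r, ρ r < q) →
        D * (dyP P).card * ((M : ℝ) / q) < ∑ p ∈ dyP P, (((Icc 1 M).filter (fun n => n % q = ρ (p % q) ∧
          (∑ j, gg (n + p * h j)) + gg (n + p * H) ≠ τ (p % q))).card : ℝ)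

/-- **The transfer.** -/
theorem transferU (d : ℕ) (hno : NoGapU d) : ∃ δ₁ : ℝ, 0 < δ₁ ∧ ∀ (q : ℕ) [NeZero q],
    ∀ (h : Fin d → ℕ) (H : ℕ), (∀ i, h i < H) → ∃ P₀ : ℕ, ∀ P : ℕ, P₀ ≤ P → ∃ X₀ : ℕ, ∀ X : ℕ, X₀ ≤ X →
      ∀ r < q, ∀ t : ZMod 2, (ex h H q r t (X / P) : ℝ) * P ≤ δ₁ * ((X : ℝ) / q) →
        δ₁ * ((X : ℝ) / q) < QAG (Phi h H q r) X P (cc q) := by
  classical
  obtain ⟨D, hD, hno⟩ := hno
  refine ⟨D / 8, by positivity, fun q _ h H hH => ?_⟩
  have hq0 : 0 < q := NeZero.pos q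
  have hqR : (0 : ℝ) < q := by exact_mod_cast hq0
  obtain ⟨P₁, hP₁⟩ := hno q hq0 h H hH
  refine ⟨max P₁ (max q 1), fun P hP => ?_⟩
  have hPP : P₁ ≤ P := le_trans (le_max_left _ _) hP
  have hPq : q ≤ P := le_trans (le_trans (le_max_left _ _) (le_max_right _ _)) hP
  have hP1 : 1 ≤ P := le_trans (le_trans (le_max_right _ _) (le_max_right _ _)) hP
  obtain ⟨M₀, hM₀⟩ := hP₁ P hPP
  obtain ⟨M₁, hM₁⟩ := exists_nat_gt (8 * P * q / D)
  refine ⟨max M₀ M₁, fun X hX r hr t hex => ?_⟩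
  have hX0 : M₀ ≤ X := le_trans (le_max_left _ _) hX
  set Y : ℝ := (X : ℝ) / q with hY
  have hX1 : 8 * P < D * Y := by
    have h1 : (M₁ : ℝ) ≤ X := by exact_mod_cast le_trans (le_max_right _ _) hX
    have h2 : 8 * P * q / D < X := hM₁.trans_le h1
    rw [div_lt_iff₀ hD] at h2
    have h3 : (8 * P : ℝ) < X * D / q := by
      rw [lt_div_iff₀ hqR]
      exact h2
    have h4 : (X : ℝ) * D / q = D * Y := by
      rw [hY]
      ring
    linarith
  have h1 := hM₀ X hX0 (fun x => (x * r) % q) (fun _ => t + ((d + 1 : ℕ) : ZMod 2))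
    (fun _ => Nat.mod_lt _ hq0)
  set b : ℕ → ℝ := fun p => (((Icc 1 X).filter (fun n => n % q = (p % q * r) % q ∧
      (∑ j, gg (n + p * h j)) + gg (n + p * H) ≠ t + ((d + 1 : ℕ) : ZMod 2))).card : ℝ) with hb
  have h1' : D * (dyP P).card * Y < ∑ p ∈ dyP P, b p := h1
  set N : ℝ := ((dyP P).card : ℝ) with hN
  have hNpos : 0 < N := by
    rcases Nat.eq_zero_or_pos (dyP P).card with h0 | h0
    · exfalso
      have : dyP P = ∅ := Finset.card_eq_zero.1 h0
      have hN0 : N = 0 := by rw [hN, h0]; simp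
      rw [hN0, this] at h1'
      simp at h1'
    · rw [hN]; exact_mod_cast h0
  have h2 : 2 * ∑ p ∈ dyP P, b p ≤ ∑ p ∈ dyP P, |∑ n ∈ Icc 1 X, gG (Phi h H q r) (cc q) p n| +
      N * (4 * P * (ex h H q r t (X / P)) + 8 * P) := by
    calc 2 * ∑ p ∈ dyP P, b p = ∑ p ∈ dyP P, 2 * b p := Finset.mul_sum _ _ _
      _ ≤ ∑ p ∈ dyP P, (|∑ n ∈ Icc 1 X, gG (Phi h H q r) (cc q) p n| +
          (4 * P * (ex h H q r t (X / P)) + 8 * P)) := by
          refine Finset.sum_le_sum fun p hp => ?_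
          have := one_prime h H q r hr t (X := X) hp hPq
          simp only [hb]
          linarith
      _ = _ := by
          rw [Finset.sum_add_distrib, Finset.sum_const, nsmul_eq_mul]
  have h3 : ∑ p ∈ dyP P, |∑ n ∈ Icc 1 X, gG (Phi h H q r) (cc q) p n| =
      N * QAG (Phi h H q r) X P (cc q) := by
    unfold QAG
    rw [← hN]
    field_simp
  rw [h3] at h2
  have h4 : N * (2 * D * Y) < N * (QAG (Phi h H q r) X P (cc q) +
      (4 * P * (ex h H q r t (X / P)) + 8 * P)) := by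
    calc N * (2 * D * Y) = 2 * (D * N * Y) := by ring
      _ < 2 * ∑ p ∈ dyP P, b p := by linarith
      _ ≤ _ := by linarith
  have h5 := lt_of_mul_lt_mul_left h4 hNpos.le
  have hX0R : (0 : ℝ) ≤ Y := by
    rw [hY]
    positivity
  nlinarith

/-- **The uniform gap at almost all scales.** -/
theorem windowU (d : ℕ) (hno : NoGapU d) : ∃ δ : ℝ, 0 < δ ∧ ∀ (q : ℕ) [NeZero q],
    ∀ (h : Fin d → ℕ) (H : ℕ), (∀ i, h i < H) → ∀ r < q, ∀ t : ZMod 2, ∀ ε : ℝ, 0 < ε →
      ∃ K₀ : ℕ, ∀ N K : ℕ, K₀ ≤ K → K ≤ N →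
        ∑ M ∈ Ioc (N / K) N, (if (ex h H q r t M : ℝ) ≤ δ * ((M : ℝ) / q) then 1 / (M : ℝ) else 0) ≤
          ε * Real.log K := by
  classical
  obtain ⟨δ, hδ, htr⟩ := transferU d hno
  refine ⟨δ, hδ, fun q _ h H hH r hr t ε hε => ?_⟩
  have hq0 : 0 < q := NeZero.pos q
  have hqR : (0 : ℝ) < q := by exact_mod_cast hq0
  obtain ⟨P₀, hP₀⟩ := htr q h H hH
  let _ : Inhabited (ZMod 2 × Fin q) := ⟨(0, ⟨0, NeZero.pos q⟩)⟩
  obtain ⟨κ, C, hκ, hC, Pstar, hP3, hbad⟩ := UGA.bad (ZMod 2 × Fin q) (H + 1) (δ / q) (by positivity)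
  set P0 : ℕ := max P₀ Pstar with hP0
  have hP03 : 3 ≤ P0 := hP3.trans (le_max_right _ _)
  obtain ⟨I, hI⟩ := seqP_div κ hκ P0 hP03 (8 * C / ε + 1)
  obtain ⟨X0, hX0⟩ := hbad P0 (le_max_right _ _) I
  set Q : ℕ → ℕ := seqP κ P0 with hQ
  have hQge : ∀ i, P0 ≤ Q i := fun i => seqP_ge κ P0 i
  have hQ1 : ∀ i, 1 ≤ Q i := fun i => le_trans (by omega) (hQge i)
  choose X2 hX2 using fun i => hP₀ (Q i) ((le_max_left _ _).trans (hQge i))
  set X1 : ℕ := max X0 ((range I).sup X2) with hX1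
  set R : ℕ := Q I with hR
  have hQR : ∀ i ∈ range I, Q i ≤ R := fun i hi =>
    seqP_mono κ P0 (Finset.mem_range.1 hi).le
  have hR1 : 1 ≤ R := hQ1 I
  set w : ℕ → ℝ := fun i => 1 / Real.log (Q i) with hw
  have hw0 : ∀ i, 0 < w i := by
    intro i
    have h2 : (3 : ℝ) ≤ (Q i : ℝ) := by exact_mod_cast hP03.trans (hQge i)
    have : 0 < Real.log (Q i) := Real.log_pos (by linarith)
    simp only [hw]
    positivity
  set S : ℝ := ∑ i ∈ range I, w i with hS
  have hSlow : 8 * C / ε + 1 ≤ S := hI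
  have hSpos : 0 < S := by
    have : 0 < 8 * C / ε := by positivity
    linarith
  set a : ℝ := ∑ X ∈ Icc 1 X1, 1 / (X : ℝ) with ha
  have ha0 : 0 ≤ a := Finset.sum_nonneg fun X _ => by positivity
  set B : ℕ → Prop := fun M => (ex h H q r t M : ℝ) ≤ δ * ((M : ℝ) / q) with hB
  obtain ⟨K₀, hK₀⟩ := exists_nat_gt (max (4 * (R : ℝ)) (Real.exp (4 * a / ε)))
  refine ⟨K₀, fun N K hK hKN => ?_⟩
  have hKR : (4 * (R : ℝ)) ≤ K ∧ Real.exp (4 * a / ε) ≤ K := by
    have h1 : (K₀ : ℝ) ≤ K := by exact_mod_cast hK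
    have h2 := le_max_left (4 * (R : ℝ)) (Real.exp (4 * a / ε))
    have h3 := le_max_right (4 * (R : ℝ)) (Real.exp (4 * a / ε))
    constructor <;> linarith
  have hRR : (1 : ℝ) ≤ R := by exact_mod_cast hR1
  have hKpos : (0 : ℝ) < K := by linarith [hKR.1]
  have hK1 : 1 ≤ K := by
    have : (0 : ℝ) < K := hKpos
    exact_mod_cast this
  -- the bound for each `X`
  have hX : ∀ X : ℕ, 1 ≤ X → ∑ i ∈ range I, (if B (X / Q i) then w i else 0) ≤
      C + S * (if X ≤ X1 then 1 else 0) := by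
    intro X hX
    by_cases hXX : X ≤ X1
    · rw [if_pos hXX]
      have h1 : ∑ i ∈ range I, (if B (X / Q i) then w i else 0) ≤ S := by
        rw [hS]
        refine Finset.sum_le_sum fun i _ => ?_
        split_ifs
        · exact le_rfl
        · exact (hw0 i).le
      linarith
    · rw [if_neg hXX]
      push Not at hXX
      have hXX0 : X0 ≤ X := le_trans (le_max_left _ _) hXX.le
      have h1 := hX0 X hXX0 (cc q) (Phi h H q r) (Phi_abs h H q r) (Phi_loc h H q r hH)
      have h2 : ∑ i ∈ range I, (if B (X / Q i) then w i else 0) ≤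
          ∑ i ∈ range I, (if δ / q * X < QAG (Phi h H q r) X (Q i) (cc q) then
            1 / Real.log (Q i) else 0) := by
        refine Finset.sum_le_sum fun i hi => ?_
        by_cases hBi : B (X / Q i)
        · have hXi : X2 i ≤ X :=
            le_trans (le_trans (Finset.le_sup hi) (le_max_right _ _)) hXX.le
          have h3 : (ex h H q r t (X / Q i) : ℝ) * (Q i) ≤ δ * ((X : ℝ) / q) := by
            have h4 : (ex h H q r t (X / Q i) : ℝ) ≤ δ * (((X / Q i : ℕ) : ℝ) / q) := hBi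
            have h5 : ((X / Q i : ℕ) : ℝ) * (Q i) ≤ X := by
              exact_mod_cast Nat.div_mul_le_self X (Q i)
            calc (ex h H q r t (X / Q i) : ℝ) * (Q i) ≤ δ * (((X / Q i : ℕ) : ℝ) / q) * (Q i) :=
                  mul_le_mul_of_nonneg_right h4 (Nat.cast_nonneg _)
              _ = δ * ((((X / Q i : ℕ) : ℝ) * (Q i)) / q) := by ring
              _ ≤ δ * ((X : ℝ) / q) :=
                  mul_le_mul_of_nonneg_left (div_le_div_of_nonneg_right h5 hqR.le) hδ.le
          have h6 := hX2 i X hXi r hr t h3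
          have h7 : δ * ((X : ℝ) / q) = δ / q * X := by ring
          rw [h7] at h6
          rw [if_pos hBi, if_pos h6]
        · rw [if_neg hBi]
          split_ifs
          · exact (hw0 i).le
          · exact le_rfl
      linarith
  -- double counting
  set L : ℝ := ∑ M ∈ Ioc (N / K) N, (if B M then 1 / (M : ℝ) else 0) with hL
  set U := Ioc (N / K) (R * (N + 1)) with hU
  have hmain : S * L ≤ 2 * (C * (Real.log (4 * R) + Real.log K) + S * a) := by
    calc S * L = ∑ i ∈ range I, w i * L := by rw [hS, Finset.sum_mul]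
      _ ≤ ∑ i ∈ range I, w i * (2 * ∑ X ∈ U, (if B (X / Q i) then 1 / (X : ℝ) else 0)) := by
          refine Finset.sum_le_sum fun i hi => ?_
          exact mul_le_mul_of_nonneg_left (pull (Q i) N K R (hQ1 i) (hQR i hi) B) (hw0 i).le
      _ = 2 * ∑ X ∈ U, (1 / (X : ℝ)) * ∑ i ∈ range I, (if B (X / Q i) then w i else 0) := by
          have e1 : ∀ i ∈ range I, w i * (2 * ∑ X ∈ U, (if B (X / Q i) then 1 / (X : ℝ) else 0)) =
              ∑ X ∈ U, 2 * ((1 / (X : ℝ)) * (if B (X / Q i) then w i else 0)) := by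
            intro i _
            rw [Finset.mul_sum, Finset.mul_sum]
            refine Finset.sum_congr rfl fun X _ => ?_
            split_ifs <;> ring
          rw [Finset.sum_congr rfl e1, Finset.sum_comm, Finset.mul_sum]
          refine Finset.sum_congr rfl fun X _ => ?_
          rw [← Finset.mul_sum, ← Finset.mul_sum]
      _ ≤ 2 * ∑ X ∈ U, (1 / (X : ℝ)) * (C + S * (if X ≤ X1 then 1 else 0)) := by
          refine mul_le_mul_of_nonneg_left (Finset.sum_le_sum fun X hXU => ?_) (by norm_num)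
          refine mul_le_mul_of_nonneg_left (hX X ?_) (by positivity)
          exact Nat.succ_le_of_lt (lt_of_le_of_lt (Nat.zero_le _) (Finset.mem_Ioc.1 hXU).1)
      _ = 2 * (C * ∑ X ∈ U, (1 / (X : ℝ)) +
            S * ∑ X ∈ U.filter (fun X => X ≤ X1), (1 / (X : ℝ))) := by
          congr 1
          rw [Finset.sum_filter, Finset.mul_sum, Finset.mul_sum, ← Finset.sum_add_distrib]
          refine Finset.sum_congr rfl fun X _ => ?_
          split_ifs <;> ring
      _ ≤ 2 * (C * (Real.log (4 * R) + Real.log K) + S * a) := by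
          have h1 := MRU.window_mass hK1 hKN hR1
          have h2 : ∑ X ∈ U.filter (fun X => X ≤ X1), (1 / (X : ℝ)) ≤ a := by
            rw [ha]
            refine Finset.sum_le_sum_of_subset_of_nonneg ?_ fun X _ _ => by positivity
            intro X hXU
            rw [Finset.mem_filter, hU, Finset.mem_Ioc] at hXU
            rw [Finset.mem_Icc]
            exact ⟨Nat.succ_le_of_lt (lt_of_le_of_lt (Nat.zero_le _) hXU.1.1), hXU.2⟩
          have h3 := mul_le_mul_of_nonneg_left h1 hC.le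
          have h4 := mul_le_mul_of_nonneg_left h2 hSpos.le
          linarith
  have hlogR : Real.log (4 * R) ≤ Real.log K := Real.log_le_log (by linarith) hKR.1
  have hloga : 4 * a / ε ≤ Real.log K := (Real.le_log_iff_exp_le hKpos).2 hKR.2
  have hloga' : 4 * a ≤ ε * Real.log K := by
    rw [div_le_iff₀ hε] at hloga
    linarith
  have hlogK : 0 ≤ Real.log K := by
    have : 0 ≤ 4 * a / ε := by positivity
    linarith
  have hSC : 8 * C ≤ ε * S := by
    have h1 : 8 * C / ε ≤ S := by linarith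
    rw [div_le_iff₀ hε] at h1
    linarith
  have hfin : S * L ≤ S * (ε * Real.log K) := by
    have h1 : C * (Real.log (4 * R) + Real.log K) ≤ C * (2 * Real.log K) :=
      mul_le_mul_of_nonneg_left (by linarith) hC.le
    have h2 : 4 * (C * Real.log K) ≤ (ε * S) * Real.log K / 2 := by
      have := mul_le_mul_of_nonneg_right hSC hlogK
      linarith
    have h3 : 2 * (S * a) ≤ S * (ε * Real.log K) / 2 := by
      have := mul_le_mul_of_nonneg_left hloga' hSpos.le
      linarith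
    linarith
  exact le_of_mul_le_mul_left hfin hSpos

end Pool.Agent.Helper21.UGU
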